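import Pool.Agent.Helper18.Katz8
import Pool.Agent.Helper77.KZ.Defs

/-!
Support file for MP_0aa406_nt (helper5, project KZ of helper77): the generic case for general `n`.
-/

set_option autoImplicit false

namespace Pool.Agent.Helper5.KZ

open Finset Helper18.Katz

variable {n : ℕ}

theorem W_sub_dvd {p : ℕ} [NeZero n] (hp : 2 ≤ p) {d : ℤ} (hd : ((p : ℤ) - 1) ∣ d - 1) (a : ℤ) :
    ((p : ℤ) ^ n - 1) ∣ Helper18.Katz.W p n (d * a) - Helper18.Katz.W p n a := by
  have h1 : ∀ x : ℤ, W p n x ≡ G p n * x [ZMOD ((p : ℤ) ^ n - 1)] := by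
    intro x
    unfold W G
    rw [Finset.sum_mul]
    apply Int.ModEq.sum
    intro j _
    exact Int.mod_modEq _ _
  have h2 : W p n (d * a) ≡ W p n a [ZMOD ((p : ℤ) ^ n - 1)] := by
    refine (h1 _).trans (Int.ModEq.trans ?_ (h1 _).symm)
    have := (G_congr (p := p) (n := n) hd).mul_right a
    have e : G p n * (d * a) = d * G p n * a := by ring
    rw [e]
    exact this
  exact h2.symm.dvd

/-- the perturbation -/
noncomputable def et (n : ℕ) (s : ℝ) (j : ZMod n) : ℝ :=
  s * Real.cos (2 * Real.pi * j.val / n + Real.pi / (4 * n))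

theorem et_ne [NeZero n] {s : ℝ} (hs : s ≠ 0) (j : ZMod n) : et n s j ≠ 0 := by
  unfold et
  apply mul_ne_zero hs
  intro h
  rw [Real.cos_eq_zero_iff] at h
  obtain ⟨k, hk⟩ := h
  have hn : (n : ℝ) ≠ 0 := by exact_mod_cast (NeZero.ne n)
  have hpi := Real.pi_ne_zero
  field_simp at hk
  have h2 : (8 * (j.val : ℝ) + 1) = 2 * n * (2 * k + 1) := by
    linarith
  have h3 : (8 * (j.val : ℤ) + 1) = 2 * n * (2 * k + 1) := by
    exact_mod_cast h2
  have h4 : (8 * (j.val : ℤ) + 1) = 2 * (n * (2 * k + 1)) := by rw [h3]; ring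
  omega

theorem et_abs_le {s : ℝ} (j : ZMod n) : |et n s j| ≤ |s| := by
  unfold et
  rw [abs_mul]
  have := Real.abs_cos_le_one (2 * Real.pi * j.val / n + Real.pi / (4 * n))
  have h0 := abs_nonneg s
  nlinarith

theorem sum_et [NeZero n] (s : ℝ) (u : ZMod n → ℤ)
    (hu : Polynomial.cyclotomic n ℤ ∣ Helper18.Katz.toPoly n u) :
    ∑ j, (u j : ℝ) * et n s j = 0 := by
  set ζ : ℂ := Complex.exp (2 * Real.pi * Complex.I / n) with hζ
  have hprim : IsPrimitiveRoot ζ n := Complex.isPrimitiveRoot_exp n (NeZero.ne n)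
  have hroot : Polynomial.aeval ζ (Polynomial.cyclotomic n ℤ) = 0 := by
    have := hprim.isRoot_cyclotomic (NeZero.pos n)
    rw [Polynomial.IsRoot.def] at this
    rw [Polynomial.aeval_def, ← Polynomial.eval_map, Polynomial.map_cyclotomic]
    exact this
  have h0 : Polynomial.aeval ζ (toPoly n u) = 0 := by
    obtain ⟨q, hq⟩ := hu
    rw [hq, map_mul, hroot, zero_mul]
  have h1 : ∑ j : ZMod n, (u j : ℂ) * ζ ^ j.val = 0 := by
    rw [← h0]
    unfold toPoly
    rw [map_sum]
    apply Finset.sum_congr rfl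
    intro j _
    rw [map_mul, map_pow, Polynomial.aeval_X, Polynomial.aeval_C]
    simp
  have h2 : ∑ j : ZMod n, (u j : ℂ) * (ζ ^ j.val * Complex.exp ((Real.pi / (4 * n) : ℝ) * Complex.I)) = 0 := by
    have : ∑ j : ZMod n, (u j : ℂ) * (ζ ^ j.val * Complex.exp ((Real.pi / (4 * n) : ℝ) * Complex.I)) =
        (∑ j : ZMod n, (u j : ℂ) * ζ ^ j.val) * Complex.exp ((Real.pi / (4 * n) : ℝ) * Complex.I) := by
      rw [Finset.sum_mul]
      apply Finset.sum_congr rfl
      intro j _
      ring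
    rw [this, h1, zero_mul]
  have h3 : ∀ j : ZMod n, ζ ^ j.val * Complex.exp ((Real.pi / (4 * n) : ℝ) * Complex.I) =
      Complex.exp ((2 * Real.pi * j.val / n + Real.pi / (4 * n) : ℝ) * Complex.I) := by
    intro j
    rw [hζ, ← Complex.exp_nat_mul, ← Complex.exp_add]
    congr 1
    push_cast
    ring
  have h4 := congrArg Complex.re h2
  rw [Complex.re_sum, Complex.zero_re] at h4
  have h5 : ∀ j : ZMod n, ((u j : ℂ) * (ζ ^ j.val * Complex.exp ((Real.pi / (4 * n) : ℝ) * Complex.I))).re =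
      (u j : ℝ) * Real.cos (2 * Real.pi * j.val / n + Real.pi / (4 * n)) := by
    intro j
    rw [h3 j]
    have : ((u j : ℤ) : ℂ) = (((u j : ℤ) : ℝ) : ℂ) := by push_cast; rfl
    rw [this, Complex.re_ofReal_mul, Complex.exp_ofReal_mul_I_re]
  rw [Finset.sum_congr rfl (fun j _ => h5 j)] at h4
  have h6 : ∑ j, (u j : ℝ) * et n s j =
      s * ∑ j : ZMod n, (u j : ℝ) * Real.cos (2 * Real.pi * j.val / n + Real.pi / (4 * n)) := by
    rw [Finset.mul_sum]
    apply Finset.sum_congr rfl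
    intro j _
    unfold et
    ring
  rw [h6, h4, mul_zero]

theorem cyc_dvd_one [NeZero n] (hn : 2 ≤ n) :
    Polynomial.cyclotomic n ℤ ∣ Helper18.Katz.toPoly n (fun _ => 1) := by
  have h1 : toPoly n (fun _ => 1) = ∑ i ∈ range n, (Polynomial.X : Polynomial ℤ) ^ i := by
    unfold toPoly
    obtain ⟨k, hk⟩ : ∃ k, n = k + 1 := ⟨n - 1, by omega⟩
    subst hk
    rw [← Fin.sum_univ_eq_sum_range (fun i => (Polynomial.X : Polynomial ℤ) ^ i) (k + 1)]
    apply Finset.sum_congr rfl
    intro j _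
    simp
    rfl
  rw [h1, ← Polynomial.prod_cyclotomic_eq_geom_sum (by omega)]
  apply Finset.dvd_prod_of_mem
  simp
  omega

/-- a sign for which at least half of the coordinates are negative -/
theorem exists_sign [NeZero n] : ∃ s : ℝ, |s| = 1 / 4 ∧
    n ≤ 2 * (univ.filter (fun j : ZMod n => et n s j < 0)).card := by
  have hsplit : (univ.filter (fun j : ZMod n => et n (1/4) j < 0)).card +
      (univ.filter (fun j : ZMod n => et n (-(1/4)) j < 0)).card = n := by
    have h1 : (univ.filter (fun j : ZMod n => et n (-(1/4)) j < 0)) =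
        univ.filter (fun j : ZMod n => ¬ et n (1/4) j < 0) := by
      apply Finset.filter_congr
      intro j _
      have h2 : et n (-(1/4)) j = - et n (1/4) j := by unfold et; ring
      have h3 : et n (1/4) j ≠ 0 := et_ne (by norm_num) j
      rw [h2]
      constructor
      · intro h; linarith
      · intro h
        have : 0 < et n (1/4) j := lt_of_le_of_ne (not_lt.mp h) h3.symm
        linarith
    rw [h1, Finset.card_filter_add_card_filter_not, Finset.card_univ, ZMod.card]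
  by_cases h : n ≤ 2 * (univ.filter (fun j : ZMod n => et n (1/4) j < 0)).card
  · exact ⟨1/4, by rw [abs_of_pos (by norm_num)], h⟩
  · refine ⟨-(1/4), by rw [abs_neg, abs_of_pos (by norm_num)], ?_⟩
    omega

theorem generic [NeZero n] (hn : 2 ≤ n) : ∃ r : ℤ, 0 < r ∧ ∀ p : ℕ, 2 ≤ p → ∀ d : ℤ,
    ((p : ℤ) - 1) ∣ d - 1 →
    (∀ u m : ZMod n → ℤ, (∀ i, |u i| ≤ r) → (∀ i, |m i| ≤ r) →
      d * ∑ i, u i * (p : ℤ) ^ i.val ≡ ∑ i, m i * (p : ℤ) ^ i.val [ZMOD ((p : ℤ) ^ n - 1)] →
      u = m ∧ Polynomial.cyclotomic n ℤ ∣ Helper18.Katz.toPoly n u) →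
    ∀ c : ℤ, 2 * c ≤ n → Helper18.Katz.Good p n d c := by
  obtain ⟨s, hs, hneg⟩ := exists_sign (n := n)
  have hs0 : s ≠ 0 := by
    intro h
    rw [h] at hs
    norm_num at hs
  have hnr : (2 : ℝ) ≤ n := by exact_mod_cast hn
  have hn0 : (0 : ℝ) < n := by linarith
  -- the minimum of `|et|`
  obtain ⟨j0, _, hj0⟩ := Finset.exists_min_image (univ : Finset (ZMod n)) (fun j => |et n s j|)
    ⟨0, mem_univ _⟩
  set μ : ℝ := |et n s j0| with hμ
  have hμ0 : 0 < μ := abs_pos.mpr (et_ne hs0 j0)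
  have hμ1 : μ ≤ 1 / 4 := by rw [← hs]; exact et_abs_le j0
  have hμj : ∀ j, μ ≤ |et n s j| := fun j => hj0 j (mem_univ j)
  set A : ℝ := μ / 2 with hA
  set δ : ℝ := μ / (8 * n) with hδ
  have hδ0 : 0 < δ := by positivity
  have hδμ : δ ≤ μ / 16 := by
    rw [hδ, div_le_div_iff₀ (by positivity) (by norm_num)]
    nlinarith
  obtain ⟨r, hr⟩ := exists_nat_gt ((n : ℝ) / (2 * δ ^ 2))
  have hr' : (n : ℝ) ≤ 2 * ((r : ℝ) + 1) * δ ^ 2 := by
    rw [div_lt_iff₀ (by positivity)] at hr
    nlinarith [sq_nonneg δ]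
  refine ⟨(r : ℤ) + 1, by positivity, fun p hp d hd hrel c hc => ?_⟩
  have hpn : 1 < p ^ n := Nat.one_lt_pow (by omega) (by omega)
  set Q : ℕ := p ^ n - 1 with hQ
  have hQ0 : 0 < Q := by omega
  have hQz : ((Q : ℕ) : ℤ) = (p : ℤ) ^ n - 1 := by
    rw [hQ, Nat.cast_sub hpn.le]; push_cast; rfl
  -- centres
  set c1 : ZMod n → ℝ := fun j => A + et n s j + (if et n s j < 0 then 1 else 0) with hc1
  have hAδ : δ < A := by rw [hA]; linarith
  have hAδ' : A < 1 - δ := by rw [hA]; linarith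
  have hc1δ : ∀ j, δ ≤ c1 j := by
    intro j
    rw [hc1]
    dsimp only
    have h1 := hμj j
    have h2 : |et n s j| ≤ 1 / 4 := by rw [← hs]; exact et_abs_le j
    have h3 := abs_le.mp h2
    split_ifs with h
    · linarith
    · rw [abs_of_nonneg (not_lt.mp h)] at h1
      linarith
  have hc1δ' : ∀ j, c1 j < 1 - δ := by
    intro j
    rw [hc1]
    dsimp only
    have h1 := hμj j
    have h2 : |et n s j| ≤ 1 / 4 := by rw [← hs]; exact et_abs_le j
    have h3 := abs_le.mp h2
    split_ifs with h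
    · rw [abs_of_neg h] at h1
      linarith
    · linarith
  set α : (ZMod n ⊕ ZMod n) → ℤ := Sum.elim (fun j => (p : ℤ) ^ j.val) (fun j => d * (p : ℤ) ^ j.val)
    with hα
  set γ : (ZMod n ⊕ ZMod n) → ℝ := Sum.elim (fun _ => A) c1 with hγ
  obtain ⟨a, haQ, ha⟩ := kronecker Q hQ0 α γ r (by
    intro k hk hdvd
    rw [hQz] at hdvd
    obtain ⟨hum, hcyc⟩ := hrel (fun j => k (Sum.inr j)) (fun j => -k (Sum.inl j))
      (by intro i; have := hk (Sum.inr i); linarith)
      (by intro i; have := hk (Sum.inl i); rw [abs_neg]; linarith)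
      (by
        rw [Int.modEq_comm, Int.modEq_iff_dvd]
        convert hdvd using 1
        rw [Fintype.sum_sum_type]
        simp only [hα, Sum.elim_inl, Sum.elim_inr, neg_mul, Finset.sum_neg_distrib, sub_neg_eq_add]
        rw [add_comm, Finset.mul_sum]
        congr 1
        apply Finset.sum_congr rfl
        intro j _
        ring)
    refine ⟨∑ j, (if et n s j < 0 then k (Sum.inr j) else 0), ?_⟩
    rw [Fintype.sum_sum_type]
    simp only [hγ, Sum.elim_inl, Sum.elim_inr]
    have e1 : ∀ j : ZMod n, ((k (Sum.inl j) : ℤ) : ℝ) * A = -((k (Sum.inr j) : ℤ) : ℝ) * A := by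
      intro j
      have := congrFun hum j
      rw [this]
      push_cast
      ring
    have e2 : ∀ j : ZMod n, ((k (Sum.inr j) : ℤ) : ℝ) * c1 j = ((k (Sum.inr j) : ℤ) : ℝ) * A +
        ((k (Sum.inr j) : ℤ) : ℝ) * et n s j + (if et n s j < 0 then ((k (Sum.inr j) : ℤ) : ℝ) else 0) := by
      intro j
      rw [hc1]
      dsimp only
      split_ifs <;> ring
    rw [Finset.sum_congr rfl (fun j _ => e1 j), Finset.sum_congr rfl (fun j _ => e2 j),
      Finset.sum_add_distrib, Finset.sum_add_distrib, sum_et s _ hcyc]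
    simp only [neg_mul, Finset.sum_neg_distrib]
    push_cast
    ring)
  rw [Fintype.card_sum, ZMod.card] at ha
  push_cast at ha
  -- consequence
  have hnear : ∀ l, ∃ k : ℤ, |th Q α γ a l - k| ≤ δ := by
    intro l
    apply near_int (n := n) (r := (r : ℝ) + 1) (by positivity) _ hδ0.le hr'
    have := ha l
    linarith
  -- residues
  have hQr : (0 : ℝ) < Q := by exact_mod_cast hQ0
  have hres : ∀ (x : ℤ) (cc : ℝ), δ ≤ cc → cc < 1 - δ →
      (∃ k : ℤ, |(a : ℝ) * ((x : ℝ) / Q) - cc - k| ≤ δ) →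
      |(((x * a) % (Q : ℤ) : ℤ) : ℝ) / Q - cc| ≤ δ := by
    intro x cc h1 h2 ⟨k, hk⟩
    have hQz0 : (0 : ℤ) < Q := by exact_mod_cast hQ0
    have e1 := Int.emod_add_mul_ediv (x * a) Q
    have e0 := Int.emod_nonneg (x * a) hQz0.ne'
    have e2 := Int.emod_lt_of_pos (x * a) hQz0
    apply near_zero (k := k - (x * a) / Q)
    · apply div_nonneg _ hQr.le
      exact_mod_cast e0
    · rw [div_lt_one hQr]
      exact_mod_cast e2
    · exact h1
    · exact h2
    · convert hk using 2
      have e3 : (((x * a) % (Q : ℤ) : ℤ) : ℝ) + Q * (((x * a) / (Q : ℤ) : ℤ) : ℝ) = x * a := by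
        exact_mod_cast e1
      have e4 : (((x * a) % (Q : ℤ) : ℤ) : ℝ) = x * a - Q * (((x * a) / (Q : ℤ) : ℤ) : ℝ) := by
        linarith
      rw [e4]
      push_cast
      field_simp
      ring
  have hresA : ∀ j : ZMod n, |((((p : ℤ) ^ j.val * a) % (Q : ℤ) : ℤ) : ℝ) / Q - A| ≤ δ := by
    intro j
    apply hres _ _ hAδ.le hAδ'
    have := hnear (Sum.inl j)
    unfold th at this
    simpa only [hα, hγ, Sum.elim_inl] using this
  have hresB : ∀ j : ZMod n, |((((d * (p : ℤ) ^ j.val) * a) % (Q : ℤ) : ℤ) : ℝ) / Q - c1 j| ≤ δ := by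
    intro j
    apply hres _ _ (hc1δ j) (hc1δ' j)
    have := hnear (Sum.inr j)
    unfold th at this
    simpa only [hα, hγ, Sum.elim_inr] using this
  refine ⟨a, ?_, ?_⟩
  · rw [← hQz]
    intro hdvd
    have h1 := hresA 0
    have h2 : ((p : ℤ) ^ (0 : ZMod n).val * a) % (Q : ℤ) = 0 :=
      Int.emod_eq_zero_of_dvd (Dvd.dvd.mul_left hdvd _)
    rw [h2] at h1
    simp only [Int.cast_zero, zero_div, zero_sub, abs_neg] at h1
    rw [abs_of_pos (by linarith)] at h1
    linarith
  · -- sum up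
    set N : ℕ := (univ.filter (fun j : ZMod n => et n s j < 0)).card with hN
    have hW1 : ((W p n a : ℤ) : ℝ) ≤ Q * (n * (A + δ)) := by
      unfold W
      rw [← hQz]
      push_cast
      have : ∑ j : ZMod n, ((((p : ℤ) ^ j.val * a) % (Q : ℤ) : ℤ) : ℝ) ≤
          ∑ _j : ZMod n, (Q * (A + δ) : ℝ) := by
        apply Finset.sum_le_sum
        intro j _
        have h1 := (abs_le.mp (hresA j)).2
        have h2 : ((((p : ℤ) ^ j.val * a) % (Q : ℤ) : ℤ) : ℝ) / Q ≤ A + δ := by linarith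
        rw [div_le_iff₀ hQr] at h2
        linarith
      rw [Finset.sum_const, Finset.card_univ, ZMod.card, nsmul_eq_mul] at this
      linarith
    have hW2 : Q * (n * (A - δ) + N) ≤ ((W p n (d * a) : ℤ) : ℝ) := by
      unfold W
      rw [← hQz]
      push_cast
      have : ∑ j : ZMod n, (Q * (c1 j - δ) : ℝ) ≤
          ∑ j : ZMod n, ((((p : ℤ) ^ j.val * (d * a)) % (Q : ℤ) : ℤ) : ℝ) := by
        apply Finset.sum_le_sum
        intro j _
        have h0 : (p : ℤ) ^ j.val * (d * a) = (d * (p : ℤ) ^ j.val) * a := by ring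
        rw [h0]
        have h1 := (abs_le.mp (hresB j)).1
        have h2 : c1 j - δ ≤ ((((d * (p : ℤ) ^ j.val) * a) % (Q : ℤ) : ℤ) : ℝ) / Q := by linarith
        rw [le_div_iff₀ hQr] at h2
        linarith
      have hsum : ∑ j : ZMod n, (Q * (c1 j - δ) : ℝ) = Q * (n * (A - δ) + N) := by
        rw [← Finset.mul_sum]
        congr 1
        have e1 : ∀ j : ZMod n, c1 j - δ = (A - δ) + ((((1 : ℤ) : ℝ)) * et n s j) +
            (if et n s j < 0 then (1 : ℝ) else 0) := by
          intro j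
          rw [hc1]
          dsimp only
          push_cast
          ring
        rw [Finset.sum_congr rfl (fun j _ => e1 j), Finset.sum_add_distrib, Finset.sum_add_distrib,
          sum_et s (fun _ => 1) (cyc_dvd_one hn), Finset.sum_const, Finset.card_univ, ZMod.card,
          nsmul_eq_mul, Finset.sum_ite, Finset.sum_const_zero, Finset.sum_const, nsmul_eq_mul,
          mul_one, ← hN]
        ring
      rw [hsum] at this
      exact this
    have hdiff : (Q : ℝ) * (N - 1) < ((W p n (d * a) - W p n a : ℤ) : ℝ) := by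
      push_cast
      have h1 : (Q : ℝ) * (n * (A - δ) + N) - Q * (n * (A + δ)) = Q * (N - 2 * (n * δ)) := by ring
      have h2 : 2 * (n * δ) = μ / 4 := by rw [hδ]; field_simp; ring
      have h3 : (Q : ℝ) * (N - 1) < Q * (N - 2 * (n * δ)) := by
        apply mul_lt_mul_of_pos_left _ hQr
        rw [h2]
        linarith
      linarith
    obtain ⟨t, ht⟩ := W_sub_dvd (n := n) hp hd (a : ℤ)
    rw [← hQz] at ht
    rw [ht] at hdiff
    have ht1 : ((N : ℤ) : ℝ) - 1 < t := by
      push_cast at hdiff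
      have := lt_of_mul_lt_mul_left hdiff hQr.le
      exact_mod_cast this
    have ht2 : (N : ℤ) ≤ t := by
      have : (((N : ℤ) - 1 : ℤ) : ℝ) < t := by push_cast; push_cast at ht1; exact ht1
      have h2 : (N : ℤ) - 1 < t := by exact_mod_cast this
      linarith
    have hNn : (n : ℤ) ≤ 2 * N := by exact_mod_cast hneg
    rw [ht, ← hQz]
    have hQz0 : (0 : ℤ) < Q := by exact_mod_cast hQ0
    nlinarith

end Pool.Agent.Helper5.KZ
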